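import Pool.Agent.H68.TG.Targets

set_option autoImplicit false

open List Pool.Agent.H68.TG

namespace Pool.Agent.H43.TG

theorem rd_append (p : List (Fin 3)) : ∀ (s : Bool) (w : List (Fin 3)),
    rd s (p ++ w) = rd s p ++ rd (xor s p.length.bodd) w := by
  induction p with
  | nil => intro s w; simp [rd]
  | cons c p ih =>
    intro s w
    cases s
    · simp [rd, ih, Nat.bodd_succ]
    · simp [rd, ih, Nat.bodd_succ]

theorem hf_false_succ (n : ℕ) : hf false (n + 1) = hf true n + 1 := by
  simp only [hf]; simp; omega

theorem hf_true_succ (n : ℕ) : hf true (n + 1) = hf false n := by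
  simp only [hf]; simp

theorem rd_zero (n : ℕ) : ∀ s, rd s (replicate n 0) = replicate (hf s n) true := by
  induction n with
  | zero => intro s; cases s <;> simp [rd, hf]
  | succ n ih =>
    intro s
    cases s
    · rw [hf_false_succ, replicate_succ, rd, ih, replicate_succ]; rfl
    · rw [hf_true_succ, replicate_succ, rd, ih]

theorem dd_succ (n : ℕ) : dd (n + 1) = 1 :: 2 :: dd n := by
  simp [dd, replicate_succ]

theorem rd_dd (n : ℕ) : ∀ s, rd s (dd n) = replicate (t3 s n) false := by
  induction n with
  | zero => intro s; cases s <;> simp [rd, dd, t3]
  | succ n ih =>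
    intro s
    cases s
    · rw [dd_succ, rd, rd, ih]
      simp [t3, img, replicate_succ]
    · rw [dd_succ, rd, rd, ih]
      have : t3 true (n + 1) = 3 * n + 1 + 1 + 1 := by simp [t3]; ring
      rw [this]
      simp [t3, img, replicate_succ]

theorem img_length (c : Fin 3) : (img c).length ≤ 3 := by
  fin_cases c <;> simp [img]

theorem rd_length (w : List (Fin 3)) : ∀ s, (rd s w).length ≤ 3 * w.length := by
  induction w with
  | nil => intro s; simp [rd]
  | cons c w ih =>
    intro s
    cases s
    · have h1 := ih true
      have h2 := img_length c
      simp only [rd, length_append, length_cons]; omega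
    · have h1 := ih false
      simp only [rd, length_cons]; omega

theorem tr_append (p : List Bool) : ∀ (s : Bool) (w : List Bool),
    tr s (p ++ w) = tr s p ++ tr (st s p) w ∧ st s (p ++ w) = st (st s p) w := by
  induction p with
  | nil => intro s w; simp [tr, st]
  | cons c p ih =>
    intro s w
    cases s <;> cases c <;> simp [tr, st, ih]

theorem tr_true (n : ℕ) : ∀ s, tr s (replicate n true) = replicate (t3 s n) false ∧
    st s (replicate n true) = s := by
  induction n with
  | zero => intro s; cases s <;> simp [tr, st, t3]
  | succ n ih =>
    intro s
    cases s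
    · refine ⟨?_, ?_⟩
      · rw [replicate_succ, tr, (ih false).1]; simp [t3, replicate_succ]
      · rw [replicate_succ, st, (ih false).2]
    · refine ⟨?_, ?_⟩
      · rw [replicate_succ, tr, (ih true).1]
        have : t3 true (n + 1) = 3 * n + 1 + 1 + 1 := by simp [t3]; ring
        rw [this]
        simp [t3, replicate_succ]
      · rw [replicate_succ, st, (ih true).2]

theorem tr_false (n : ℕ) : ∀ s, tr s (replicate n false) = replicate (hf s n) true ∧
    st s (replicate n false) = xor s n.bodd := by
  induction n with
  | zero => intro s; cases s <;> simp [tr, st, hf]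
  | succ n ih =>
    intro s
    cases s
    · refine ⟨?_, ?_⟩
      · rw [hf_false_succ, replicate_succ, tr, (ih true).1, replicate_succ]
      · rw [replicate_succ, st]
        have := (ih true).2
        simp only [Bool.not_false]
        rw [this]; simp [Nat.bodd_succ]
    · refine ⟨?_, ?_⟩
      · rw [hf_true_succ, replicate_succ, tr, (ih false).1]
      · rw [replicate_succ, st]
        have := (ih false).2
        simp only [Bool.not_true]
        rw [this]; simp [Nat.bodd_succ]

theorem tr_length (w : List Bool) : ∀ s, (tr s w).length ≤ 3 * w.length := by
  induction w with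
  | nil => intro s; simp [tr]
  | cons c w ih =>
    intro s
    have h1 := ih true
    have h2 := ih false
    cases s <;> cases c <;> simp only [tr, length_cons] <;> omega

theorem flat_one (w : List Bool) : flat (one w) = w := by
  induction w with
  | nil => simp [one, flat]
  | cons c w ih =>
    have : one (c :: w) = (c, 1) :: one w := by simp [one]
    rw [this, flat, ih]; simp

theorem pf_RDB : T_RDB :=
  ⟨fun s p w => rd_append p s w, fun s n => rd_zero n s, fun s n => rd_dd n s,
    fun s w => rd_length w s, fun s p w => tr_append p s w, fun s n => tr_true n s,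
    fun s n => tr_false n s, fun s w => tr_length w s, flat_one⟩

end Pool.Agent.H43.TG
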