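import Pool.Agent.H68.TG.Targets

set_option autoImplicit false

open List Pool.Agent.H68.TG

namespace Pool.Agent.H43.TG

theorem emb_append (a : List Bool) : ∀ b, emb (a ++ b) = emb a ++ emb b := by
  induction a with
  | nil => intro b; simp [emb]
  | cons c a ih => intro b; cases c <;> simp [emb, ih]

theorem prd_emb (c : Fin 3) : prd c = emb (img c) := by
  fin_cases c <;> simp [prd, img, emb]

theorem rdw_aux (w : List (Fin 3)) : ∀ (s : Bool) (o : List Bool), ∃ n,
    step^[n] ((w ++ emb o).drop (cond s 1 0)) =
      (emb (o ++ rd s w)).drop (cond (xor s w.length.bodd) 1 0) ∨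
    (step^[n] ((w ++ emb o).drop (cond s 1 0))).length < 2 := by
  induction w with
  | nil =>
    intro s o
    refine ⟨0, Or.inl ?_⟩
    simp [rd]
  | cons c w ih =>
    intro s o
    cases s
    · by_cases hl : (c :: (w ++ emb o)).length < 2
      · exact ⟨0, Or.inr (by simpa using hl)⟩
      · obtain ⟨n, hn⟩ := ih true (o ++ img c)
        have hne : 1 ≤ (w ++ emb o).length := by simp only [length_cons] at hl; omega
        have hstep : step (((c :: w) ++ emb o).drop (cond false 1 0)) =
            (w ++ emb (o ++ img c)).drop (cond true 1 0) := by
          have h1 : (w ++ emb (o ++ img c)).drop 1 = (w ++ emb o).drop 1 ++ emb (img c) := by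
            rw [emb_append, ← List.append_assoc, List.drop_append_of_le_length hne]
          simp only [cond_false, cond_true, List.drop_zero, List.cons_append]
          rw [h1, ← prd_emb]
          simp [step]
        have h2 : o ++ img c ++ rd true w = o ++ rd false (c :: w) := by
          simp [rd]
        have h3 : (xor true w.length.bodd) = (xor false (c :: w).length.bodd) := by
          simp [Nat.bodd_succ]
        refine ⟨n + 1, ?_⟩
        rw [Function.iterate_succ_apply, hstep]
        rw [h2, h3] at hn
        exact hn
    · obtain ⟨n, hn⟩ := ih false o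
      have h0 : (((c :: w) ++ emb o).drop (cond true 1 0)) =
          (w ++ emb o).drop (cond false 1 0) := by simp
      have h3 : (xor false w.length.bodd) = (xor true (c :: w).length.bodd) := by
        simp [Nat.bodd_succ]
      refine ⟨n, ?_⟩
      rw [h0]
      rw [h3] at hn
      exact hn

theorem pf_RDW : T_RDW := by
  intro w
  obtain ⟨n, hn⟩ := rdw_aux w false []
  refine ⟨n, ?_⟩
  simpa [tape, emb] using hn

end Pool.Agent.H43.TG
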